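import Mathlib
import Pool.Agent.W622.SC.Stmts
import Pool.Agent.H904R2.Degree

set_option autoImplicit false

/-! SC-DET, part A: the pinch map and the coordinates of the sphere. -/

open unitInterval Topology ContinuousMap

namespace Pool.Agent.W340.SC

open Pool.Agent.W622.SC Pool.Agent.H904R2 Pool.Agent.H904R2.Deg

/-- cube coordinate -/
noncomputable def cc (u : I) : ℝ := 2 * (u : ℝ) - 1

lemma cc_cont : Continuous cc := by unfold cc; fun_prop

lemma abs_cc (u : I) : |cc u| ≤ 1 := by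
  unfold cc
  rw [abs_le]
  constructor
  · have := u.2.1; linarith
  · have := u.2.2; linarith

lemma abs_cc_eq {u : I} (h : |cc u| = 1) : u = 0 ∨ u = 1 := by
  unfold cc at h
  rcases abs_eq (zero_le_one (α := ℝ)) |>.mp h with h | h
  · right; exact Subtype.ext (by show (u : ℝ) = 1; linarith)
  · left; exact Subtype.ext (by show (u : ℝ) = 0; linarith)

lemma cc_zero : cc 0 = -1 := by simp [cc]
lemma cc_one : cc 1 = 1 := by simp [cc]; norm_num

/-- size of the two suspension coordinates -/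
noncomputable def mt (t : Fin 2 → I) : ℝ := max |cc (t 0)| |cc (t 1)|

lemma mt_cont : Continuous mt := by
  unfold mt
  exact (cc_cont.comp (continuous_apply 0)).abs.max (cc_cont.comp (continuous_apply 1)).abs

lemma mt_nonneg (t : Fin 2 → I) : 0 ≤ mt t := (abs_nonneg _).trans (le_max_left _ _)

lemma mt_le (t : Fin 2 → I) : mt t ≤ 1 := max_le (abs_cc _) (abs_cc _)

lemma mt_bd {t : Fin 2 → I} : t ∈ Cube.boundary (Fin 2) ↔ mt t = 1 := by
  constructor
  · rintro ⟨i, hi⟩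
    apply le_antisymm (mt_le t)
    have h1 : |cc (t i)| = 1 := by
      rcases hi with h | h
      · rw [h, cc_zero]; norm_num
      · rw [h, cc_one]; norm_num
    fin_cases i
    · exact h1.symm.le.trans (le_max_left _ _)
    · exact h1.symm.le.trans (le_max_right _ _)
  · intro h
    unfold mt at h
    rcases max_choice |cc (t 0)| |cc (t 1)| with h1 | h1
    · rw [h1] at h; exact ⟨0, abs_cc_eq h⟩
    · rw [h1] at h; exact ⟨1, abs_cc_eq h⟩

/-- size of all coordinates -/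
noncomputable def mm (x : (Fin 2 → I) × (I × I)) : ℝ :=
  max (mt x.1) (max |cc x.2.1| |cc x.2.2|)

lemma mm_cont : Continuous mm := by
  unfold mm
  exact (mt_cont.comp continuous_fst).max (((cc_cont.comp (by fun_prop)).abs).max
    ((cc_cont.comp (by fun_prop)).abs))

lemma mm_le (x : (Fin 2 → I) × (I × I)) : mm x ≤ 1 :=
  max_le (mt_le _) (max_le (abs_cc _) (abs_cc _))

lemma mm_nonneg (x : (Fin 2 → I) × (I × I)) : 0 ≤ mm x := (mt_nonneg _).trans (le_max_left _ _)

/-- the pinch map in coordinates -/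
noncomputable def thv (x : (Fin 2 → I) × (I × I)) : Fin 5 → ℝ :=
  ![mm x - 1 / 2, -((1 - mm x) * cc x.2.1), (1 - mm x) * cc (x.1 0), (1 - mm x) * cc (x.1 1),
    -(mm x - 1 / 2) + (1 - mm x) * cc x.2.2]

lemma thv_cont : Continuous thv := by
  have h1 := mm_cont
  have h2 : Continuous fun x : (Fin 2 → I) × (I × I) => cc x.2.1 := cc_cont.comp (by fun_prop)
  have h3 : Continuous fun x : (Fin 2 → I) × (I × I) => cc x.2.2 := cc_cont.comp (by fun_prop)
  have h4 : Continuous fun x : (Fin 2 → I) × (I × I) => cc (x.1 0) := cc_cont.comp (by fun_prop)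
  have h5 : Continuous fun x : (Fin 2 → I) × (I × I) => cc (x.1 1) := cc_cont.comp (by fun_prop)
  unfold thv
  refine continuous_pi fun i => ?_
  fin_cases i <;> simp <;> fun_prop

lemma thv_ne (x : (Fin 2 → I) × (I × I)) : thv x ≠ 0 := by
  intro h
  have e0 : mm x - 1 / 2 = 0 := congrFun h 0
  have e1 : -((1 - mm x) * cc x.2.1) = 0 := congrFun h 1
  have e2 : (1 - mm x) * cc (x.1 0) = 0 := congrFun h 2
  have e3 : (1 - mm x) * cc (x.1 1) = 0 := congrFun h 3
  have e4 : -(mm x - 1 / 2) + (1 - mm x) * cc x.2.2 = 0 := congrFun h 4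
  have hm : mm x = 1 / 2 := by linarith
  rw [hm] at e1 e2 e3 e4
  have f1 : cc x.2.1 = 0 := by linarith
  have f2 : cc (x.1 0) = 0 := by linarith
  have f3 : cc (x.1 1) = 0 := by linarith
  have f4 : cc x.2.2 = 0 := by linarith
  have : mm x = 0 := by simp [mm, mt, f1, f2, f3, f4]
  linarith

/-- the pinch map -/
noncomputable def th : C((Fin 2 → I) × (I × I), Pc 5) :=
  ⟨fun x => ⟨thv x, thv_ne x⟩, thv_cont.subtype_mk _⟩

lemma w0_ne : (![1 / 2, 0, 0, 0, -(1 / 2)] : Fin 5 → ℝ) ≠ 0 := by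
  intro h
  have := congrFun h 0
  simp at this

/-- the base point -/
noncomputable def w0 : Pc 5 := ⟨![1 / 2, 0, 0, 0, -(1 / 2)], w0_ne⟩

lemma th_of_mm {x : (Fin 2 → I) × (I × I)} (h : mm x = 1) : th x = w0 := by
  apply Subtype.ext
  show thv x = ![1 / 2, 0, 0, 0, -(1 / 2)]
  unfold thv
  rw [h]
  funext i
  fin_cases i <;> simp <;> norm_num

lemma mm_of_bad {t : Fin 2 → I} {x : I × I} (h : Qbad x) : mm (t, x) = 1 := by
  apply le_antisymm (mm_le _)
  unfold mm
  rcases h with h | h | h | h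
  · refine le_trans ?_ ((le_max_left _ _).trans (le_max_right _ _))
    show 1 ≤ |cc x.1|
    rw [h, cc_zero]; norm_num
  · refine le_trans ?_ ((le_max_left _ _).trans (le_max_right _ _))
    show 1 ≤ |cc x.1|
    rw [h, cc_one]; norm_num
  · refine le_trans ?_ ((le_max_right _ _).trans (le_max_right _ _))
    show 1 ≤ |cc x.2|
    rw [h, cc_one]; norm_num
  · refine le_trans ?_ ((le_max_right _ _).trans (le_max_right _ _))
    show 1 ≤ |cc x.2|
    rw [h.1, cc_zero]; norm_num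

lemma mm_of_zero (t : Fin 2 → I) (w : I) : mm (t, (w, 0)) = 1 := by
  apply le_antisymm (mm_le _)
  unfold mm
  refine le_trans ?_ ((le_max_right _ _).trans (le_max_right _ _))
  show 1 ≤ |cc 0|
  rw [cc_zero]; norm_num

lemma mm_of_bd {t : Fin 2 → I} (ht : t ∈ Cube.boundary (Fin 2)) (x : I × I) : mm (t, x) = 1 := by
  apply le_antisymm (mm_le _)
  rw [mt_bd] at ht
  exact ht.symm.le.trans (le_max_left _ _)

/-- the pinch map on `Q` with values in maps of the square -/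
noncomputable def dQ : C(QQ, C(Fin 2 → I, Pc 5)) :=
  QQ.lift ((th.comp ⟨Prod.swap, continuous_swap⟩).curry) (ContinuousMap.const _ w0)
    (by
      intro x hx
      ext1 t
      exact th_of_mm (mm_of_bad hx))
    (by
      intro w w' _
      ext1 t
      show th (t, (w, 0)) = th (t, (w', 0))
      rw [th_of_mm (mm_of_zero t w), th_of_mm (mm_of_zero t w')])

lemma dQ_mk (x : I × I) (t : Fin 2 → I) : dQ (QQ.mk x) t = th (t, x) := rfl

lemma pt_bad : Qbad ((0, 0) : I × I) := Or.inl rfl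

/-- the pinch map as a two-dimensional loop -/
noncomputable def dd : LP QQ.pt w0 :=
  ⟨⟨fun t => ⟨((dQ.uncurry).comp ⟨Prod.swap, continuous_swap⟩).curry t, by
      show th (t, (0, 0)) = w0
      exact th_of_mm (mm_of_bad pt_bad)⟩, by
    apply Continuous.subtype_mk
    exact (((dQ.uncurry).comp ⟨Prod.swap, continuous_swap⟩).curry).continuous⟩, by
    intro t ht
    apply Subtype.ext
    ext1 q
    obtain ⟨x, rfl⟩ := QQ.mk_surj q
    show th (t, x) = w0
    exact th_of_mm (mm_of_bd ht x)⟩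

lemma dd_mk (t : Fin 2 → I) (x : I × I) : (dd t).1 (QQ.mk x) = th (t, x) := rfl

lemma dd_zero (t : Fin 2 → I) (w : I) : (dd t).1 (QQ.mk (w, 0)) = w0 := by
  rw [dd_mk, th_of_mm (mm_of_zero t w)]

/-! ### The sphere -/

/-- the norm on `ℂ × ℝ² × ℝ` -/
noncomputable def NN (v : Fin 5 → ℝ) : ℝ := ‖c2 v‖ + max |v 2| |v 3| + |v 4|

lemma NN_cont : Continuous NN := by
  unfold NN
  exact (((continuous_c2 3).norm).add (((continuous_apply 2).abs).max
    ((continuous_apply 3).abs))).add (continuous_apply 4).abs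

lemma NN_pos {v : Fin 5 → ℝ} (h : v ≠ 0) : 0 < NN v := by
  have h0 : 0 ≤ ‖c2 v‖ := norm_nonneg _
  have h1 : 0 ≤ max |v 2| |v 3| := (abs_nonneg _).trans (le_max_left _ _)
  have h2 : 0 ≤ |v 4| := abs_nonneg _
  by_contra hc
  push Not at hc
  unfold NN at hc
  apply h
  have k0 : ‖c2 v‖ = 0 := by linarith
  have k1 : max |v 2| |v 3| = 0 := by linarith
  have k2 : |v 4| = 0 := by linarith
  have z : c2 v = 0 := norm_eq_zero.mp k0
  have z0 : v 0 = 0 := by rw [← c2_re v, z]; rfl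
  have z1 : v 1 = 0 := by rw [← c2_im v, z]; rfl
  have z2 : v 2 = 0 := abs_eq_zero.mp (le_antisymm (k1 ▸ le_max_left _ _) (abs_nonneg _))
  have z3 : v 3 = 0 := abs_eq_zero.mp (le_antisymm (k1 ▸ le_max_right _ _) (abs_nonneg _))
  have z4 : v 4 = 0 := abs_eq_zero.mp k2
  funext i
  fin_cases i <;> assumption

lemma c2_smul (a : ℝ) (v : Fin 5 → ℝ) : c2 (a • v) = (a : ℂ) * c2 v := by
  unfold c2
  simp only [Pi.smul_apply, smul_eq_mul]
  push_cast; ring

lemma NN_smul {a : ℝ} (ha : 0 ≤ a) (v : Fin 5 → ℝ) : NN (a • v) = a * NN v := by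
  unfold NN
  rw [c2_smul, norm_mul, Complex.norm_real, Real.norm_eq_abs, abs_of_nonneg ha]
  simp only [Pi.smul_apply, smul_eq_mul, abs_mul, abs_of_nonneg ha]
  rw [← mul_max_of_nonneg _ _ ha]
  ring

/-- the sphere -/
abbrev Sph : Type := {v : Fin 5 → ℝ // NN v = 1}

lemma Sph_ne (v : Sph) : v.1 ≠ 0 := by
  intro h
  have := v.2
  rw [h] at this
  simp [NN, c2] at this

/-- normalisation -/
noncomputable def nrm : C(Pc 5, Sph) :=
  ⟨fun v => ⟨(NN v.1)⁻¹ • v.1, by
    rw [NN_smul (inv_nonneg.mpr (NN_pos v.2).le), inv_mul_cancel₀ (NN_pos v.2).ne']⟩, by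
    apply Continuous.subtype_mk
    exact ((NN_cont.comp continuous_subtype_val).inv₀ fun v => (NN_pos v.2).ne').smul
      continuous_subtype_val⟩

/-- the interval `[-1, 1]` -/
abbrev J : Type := Set.Icc (-1 : ℝ) 1

/-- the parameters of the sphere -/
abbrev B : Type := (Fin 2 → I) × (I × J)

/-- parametrisation of the sphere -/
noncomputable def qv (b : B) : Fin 5 → ℝ :=
  ![(1 - |(b.2.2 : ℝ)|) * (1 - mt b.1) * Real.cos (2 * Real.pi * b.2.1),
    (1 - |(b.2.2 : ℝ)|) * (1 - mt b.1) * Real.sin (2 * Real.pi * b.2.1),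
    (1 - |(b.2.2 : ℝ)|) * cc (b.1 0), (1 - |(b.2.2 : ℝ)|) * cc (b.1 1), (b.2.2 : ℝ)]

lemma qv_cont : Continuous qv := by
  have h1 : Continuous fun b : B => mt b.1 := mt_cont.comp continuous_fst
  have h2 : Continuous fun b : B => |(b.2.2 : ℝ)| := by fun_prop
  have h4 : Continuous fun x : B => cc (x.1 0) := cc_cont.comp (by fun_prop)
  have h5 : Continuous fun x : B => cc (x.1 1) := cc_cont.comp (by fun_prop)
  unfold qv
  refine continuous_pi fun i => ?_
  fin_cases i <;> simp <;> fun_prop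

lemma abs_J (ρ : J) : |(ρ : ℝ)| ≤ 1 := abs_le.mpr ρ.2

lemma c2_qv (b : B) : c2 (qv b) = (((1 - |(b.2.2 : ℝ)|) * (1 - mt b.1) : ℝ) : ℂ) *
    Complex.exp (((2 * Real.pi * b.2.1 : ℝ) : ℂ) * Complex.I) := by
  rw [Complex.exp_mul_I, ← Complex.ofReal_cos, ← Complex.ofReal_sin]
  unfold c2 qv
  simp only [Matrix.cons_val_zero, Matrix.cons_val_one]
  push_cast
  ring

lemma NN_qv (b : B) : NN (qv b) = 1 := by
  have h1 : 0 ≤ 1 - |(b.2.2 : ℝ)| := by linarith [abs_J b.2.2]
  have h2 : 0 ≤ 1 - mt b.1 := by linarith [mt_le b.1]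
  unfold NN
  rw [c2_qv, norm_mul, Complex.norm_exp_ofReal_mul_I, Complex.norm_real, Real.norm_eq_abs,
    abs_of_nonneg (mul_nonneg h1 h2)]
  have e2 : qv b 2 = (1 - |(b.2.2 : ℝ)|) * cc (b.1 0) := rfl
  have e3 : qv b 3 = (1 - |(b.2.2 : ℝ)|) * cc (b.1 1) := rfl
  have e4 : qv b 4 = (b.2.2 : ℝ) := rfl
  rw [e2, e3, e4, abs_mul, abs_mul, abs_of_nonneg h1, ← mul_max_of_nonneg _ _ h1]
  show (1 - |(b.2.2 : ℝ)|) * (1 - mt b.1) * 1 + (1 - |(b.2.2 : ℝ)|) * mt b.1 + |(b.2.2 : ℝ)| = 1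
  ring

/-- the parametrisation of the sphere -/
noncomputable def q : C(B, Sph) := ⟨fun b => ⟨qv b, NN_qv b⟩, qv_cont.subtype_mk _⟩

lemma q_surj : Function.Surjective q := by
  rintro ⟨v, hv⟩
  have hv' : ‖c2 v‖ + max |v 2| |v 3| + |v 4| = 1 := hv
  have h0 : 0 ≤ ‖c2 v‖ := norm_nonneg _
  have h1 : 0 ≤ max |v 2| |v 3| := (abs_nonneg _).trans (le_max_left _ _)
  have h2 : 0 ≤ |v 4| := abs_nonneg _
  have hJ : v 4 ∈ Set.Icc (-1 : ℝ) 1 := abs_le.mp (by linarith)
  -- the angle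
  obtain ⟨w, hw⟩ : ∃ w : I, c2 v = (‖c2 v‖ : ℂ) *
      Complex.exp (((2 * Real.pi * w : ℝ) : ℂ) * Complex.I) := by
    have hpi := Real.pi_pos
    have ha := Complex.norm_mul_exp_arg_mul_I (c2 v)
    have hb1 := Complex.neg_pi_lt_arg (c2 v)
    have hb2 := Complex.arg_le_pi (c2 v)
    by_cases hs : 0 ≤ Complex.arg (c2 v)
    · refine ⟨⟨Complex.arg (c2 v) / (2 * Real.pi), by positivity, ?_⟩, ?_⟩
      · rw [div_le_one (by positivity)]; linarith
      · show c2 v = (‖c2 v‖ : ℂ) * Complex.exp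
          (((2 * Real.pi * (Complex.arg (c2 v) / (2 * Real.pi)) : ℝ) : ℂ) * Complex.I)
        rw [mul_div_cancel₀ _ (by positivity : (2 * Real.pi) ≠ 0)]
        exact ha.symm
    · push Not at hs
      refine ⟨⟨(Complex.arg (c2 v) + 2 * Real.pi) / (2 * Real.pi), ?_, ?_⟩, ?_⟩
      · apply div_nonneg _ (by positivity); linarith
      · rw [div_le_one (by positivity)]; linarith
      · show c2 v = (‖c2 v‖ : ℂ) * Complex.exp
          (((2 * Real.pi * ((Complex.arg (c2 v) + 2 * Real.pi) / (2 * Real.pi)) : ℝ) : ℂ) *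
            Complex.I)
        rw [mul_div_cancel₀ _ (by positivity : (2 * Real.pi) ≠ 0)]
        push_cast
        rw [add_mul, Complex.exp_add, Complex.exp_two_pi_mul_I, mul_one]
        exact ha.symm
  rcases h2.lt_or_eq.elim (fun _ => lt_or_eq_of_le (by linarith : |v 4| ≤ 1))
    (fun h => Or.inl (by rw [← h]; norm_num)) with hlt | heq
  · -- generic case
    set R : ℝ := 1 - |v 4| with hR
    have hRpos : 0 < R := by rw [hR]; linarith
    have hsum : ‖c2 v‖ + max |v 2| |v 3| = R := by rw [hR]; linarith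
    have hx : ∀ a : ℝ, |a| ≤ max |v 2| |v 3| → (1 + a / R) / 2 ∈ I := by
      intro a ha
      have h3 : |a / R| ≤ 1 := by
        rw [abs_div, abs_of_pos hRpos, div_le_one hRpos]; linarith
      rw [abs_le] at h3
      constructor
      · linarith [h3.1]
      · linarith [h3.2]
    let t : Fin 2 → I := ![⟨(1 + v 2 / R) / 2, hx _ (le_max_left _ _)⟩,
      ⟨(1 + v 3 / R) / 2, hx _ (le_max_right _ _)⟩]
    have ht0 : cc (t 0) = v 2 / R := by
      show 2 * ((1 + v 2 / R) / 2) - 1 = v 2 / R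
      ring
    have ht1 : cc (t 1) = v 3 / R := by
      show 2 * ((1 + v 3 / R) / 2) - 1 = v 3 / R
      ring
    have hmt : mt t = max |v 2| |v 3| / R := by
      unfold mt
      rw [ht0, ht1, abs_div, abs_div, abs_of_pos hRpos, max_div_div_right hRpos.le]
    have hkm : (1 - |v 4|) * (1 - mt t) = ‖c2 v‖ := by
      rw [hmt, ← hR, mul_sub, mul_div_cancel₀ _ hRpos.ne', mul_one]
      linarith
    refine ⟨(t, (w, ⟨v 4, hJ⟩)), ?_⟩
    apply Subtype.ext
    show qv (t, (w, ⟨v 4, hJ⟩)) = v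
    have hc : c2 (qv (t, (w, ⟨v 4, hJ⟩))) = c2 v := by
      rw [c2_qv]
      show (((1 - |v 4|) * (1 - mt t) : ℝ) : ℂ) * _ = _
      rw [hkm]
      exact hw.symm
    funext i
    fin_cases i
    · show qv (t, (w, ⟨v 4, hJ⟩)) 0 = v 0
      rw [← c2_re (qv (t, (w, ⟨v 4, hJ⟩))), hc, c2_re]
    · show qv (t, (w, ⟨v 4, hJ⟩)) 1 = v 1
      rw [← c2_im (qv (t, (w, ⟨v 4, hJ⟩))), hc, c2_im]
    · show (1 - |v 4|) * cc (t 0) = v 2
      rw [ht0, ← hR, mul_div_cancel₀ _ hRpos.ne']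
    · show (1 - |v 4|) * cc (t 1) = v 3
      rw [ht1, ← hR, mul_div_cancel₀ _ hRpos.ne']
    · rfl
  · -- the poles
    have k0 : ‖c2 v‖ = 0 := by linarith
    have k1 : max |v 2| |v 3| = 0 := by linarith
    have z : c2 v = 0 := norm_eq_zero.mp k0
    have z0 : v 0 = 0 := by rw [← c2_re v, z]; rfl
    have z1 : v 1 = 0 := by rw [← c2_im v, z]; rfl
    have z2 : v 2 = 0 := abs_eq_zero.mp (le_antisymm (k1 ▸ le_max_left _ _) (abs_nonneg _))
    have z3 : v 3 = 0 := abs_eq_zero.mp (le_antisymm (k1 ▸ le_max_right _ _) (abs_nonneg _))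
    refine ⟨(fun _ => 0, (0, ⟨v 4, hJ⟩)), ?_⟩
    apply Subtype.ext
    funext i
    fin_cases i
    · show (1 - |v 4|) * _ * _ = v 0
      rw [heq, z0]; ring
    · show (1 - |v 4|) * _ * _ = v 1
      rw [heq, z1]; ring
    · show (1 - |v 4|) * _ = v 2
      rw [heq, z2]; ring
    · show (1 - |v 4|) * _ = v 3
      rw [heq, z3]; ring
    · rfl

/-- the fibres of the parametrisation -/
lemma q_fib {Z : Type} (f : B → Z) (h1 : ∀ t w t' w' (ρ : J), |(ρ : ℝ)| = 1 →
    f (t, (w, ρ)) = f (t', (w', ρ))) (h2 : ∀ t w w' ρ, t ∈ Cube.boundary (Fin 2) →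
    f (t, (w, ρ)) = f (t, (w', ρ))) (h3 : ∀ t ρ, f (t, (0, ρ)) = f (t, (1, ρ))) {b b' : B}
    (h : q b = q b') : f b = f b' := by
  obtain ⟨t, w, ρ⟩ := b
  obtain ⟨t', w', ρ'⟩ := b'
  have hq : qv (t, (w, ρ)) = qv (t', (w', ρ')) := congrArg Subtype.val h
  have e0 : (1 - |(ρ : ℝ)|) * (1 - mt t) * Real.cos (2 * Real.pi * w) =
    (1 - |(ρ' : ℝ)|) * (1 - mt t') * Real.cos (2 * Real.pi * w') := congrFun hq 0
  have e1 : (1 - |(ρ : ℝ)|) * (1 - mt t) * Real.sin (2 * Real.pi * w) =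
    (1 - |(ρ' : ℝ)|) * (1 - mt t') * Real.sin (2 * Real.pi * w') := congrFun hq 1
  have e2 : (1 - |(ρ : ℝ)|) * cc (t 0) = (1 - |(ρ' : ℝ)|) * cc (t' 0) := congrFun hq 2
  have e3 : (1 - |(ρ : ℝ)|) * cc (t 1) = (1 - |(ρ' : ℝ)|) * cc (t' 1) := congrFun hq 3
  have e4 : (ρ : ℝ) = ρ' := congrFun hq 4
  have e5 : ρ = ρ' := Subtype.ext e4
  subst e5
  rcases (abs_J ρ).lt_or_eq with hlt | heq
  swap
  · exact h1 _ _ _ _ _ heq
  have hk : 1 - |(ρ : ℝ)| ≠ 0 := by linarith
  have f2 := mul_left_cancel₀ hk e2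
  have f3 := mul_left_cancel₀ hk e3
  have ht : t = t' := by
    funext i
    fin_cases i
    · show t 0 = t' 0
      unfold cc at f2
      exact Subtype.ext (by linarith)
    · show t 1 = t' 1
      unfold cc at f3
      exact Subtype.ext (by linarith)
  subst ht
  by_cases hb : t ∈ Cube.boundary (Fin 2)
  · exact h2 _ _ _ _ hb
  have hm : 1 - mt t ≠ 0 := by
    intro h0
    exact hb (mt_bd.mpr (by linarith))
  have f0 := mul_left_cancel₀ (mul_ne_zero hk hm) e0
  have f1 := mul_left_cancel₀ (mul_ne_zero hk hm) e1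
  have ha := Real.Angle.cos_sin_inj f0 f1
  obtain ⟨n, hn⟩ := Real.Angle.angle_eq_iff_two_pi_dvd_sub.mp ha
  have hpi := Real.pi_pos
  have hn' : (w : ℝ) - w' = n := by
    have : 2 * Real.pi * ((w : ℝ) - w') = 2 * Real.pi * n := by linarith
    exact mul_left_cancel₀ (by positivity) this
  have w0 := w.2.1
  have w1 := w.2.2
  have w0' := w'.2.1
  have w1' := w'.2.2
  have b1 : (n : ℝ) ≤ 1 := by linarith
  have b2 : (-1 : ℝ) ≤ n := by linarith
  have b1' : n ≤ 1 := by exact_mod_cast b1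
  have b2' : -1 ≤ n := by exact_mod_cast b2
  obtain rfl | rfl | rfl : n = -1 ∨ n = 0 ∨ n = 1 := by omega
  · push_cast at hn'
    have g1 : w = 0 := Subtype.ext (by show (w : ℝ) = 0; linarith)
    have g2 : w' = 1 := Subtype.ext (by show (w' : ℝ) = 1; linarith)
    rw [g1, g2]
    exact h3 _ _
  · push_cast at hn'
    have g1 : w = w' := Subtype.ext (by linarith)
    rw [g1]
  · push_cast at hn'
    have g1 : w = 1 := Subtype.ext (by show (w : ℝ) = 1; linarith)
    have g2 : w' = 0 := Subtype.ext (by show (w' : ℝ) = 0; linarith)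
    rw [g1, g2]
    exact (h3 _ _).symm

/-! ### The positive and negative parts of the last coordinate -/

/-- `max 0 ρ` -/
noncomputable def pos (ρ : J) : I := ⟨max 0 (ρ : ℝ), le_max_left _ _, max_le zero_le_one ρ.2.2⟩

/-- `1 + min 0 ρ` -/
noncomputable def nf (ρ : J) : I := ⟨1 + min 0 (ρ : ℝ), by
    have h1 : (-1 : ℝ) ≤ min 0 (ρ : ℝ) := le_min (by norm_num) ρ.2.1
    have h2 : min 0 (ρ : ℝ) ≤ 0 := min_le_left _ _
    constructor <;> linarith⟩

lemma pos_cont : Continuous pos := by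
  unfold pos
  exact (continuous_const.max continuous_subtype_val).subtype_mk _

lemma nf_cont : Continuous nf := by
  unfold nf
  exact (continuous_const.add (continuous_const.min continuous_subtype_val)).subtype_mk _

lemma pos_of_nonpos {ρ : J} (h : (ρ : ℝ) ≤ 0) : pos ρ = 0 :=
  Subtype.ext (max_eq_left h)

lemma pos_of_nonneg {ρ : J} (h : 0 ≤ (ρ : ℝ)) : ((pos ρ : I) : ℝ) = ρ := max_eq_right h

lemma nf_of_nonneg {ρ : J} (h : 0 ≤ (ρ : ℝ)) : nf ρ = 1 :=
  Subtype.ext (by show 1 + min 0 (ρ : ℝ) = 1; rw [min_eq_left h, add_zero])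

/-! ### The key computation -/

lemma key (t : Fin 2 → I) (w : I) (ρ : J) (μ : ℝ) (hμ : 0 < μ) :
    thv (t, (w, pos ρ)) + μ • qv (t, (w, ρ)) ≠ 0 := by
  intro h
  set m := mm (t, (w, pos ρ)) with hm
  have e0 : (m - 1 / 2) + μ * ((1 - |(ρ : ℝ)|) * (1 - mt t) * Real.cos (2 * Real.pi * w)) = 0 :=
    congrFun h 0
  have e1 : -((1 - m) * cc w) + μ * ((1 - |(ρ : ℝ)|) * (1 - mt t) *
    Real.sin (2 * Real.pi * w)) = 0 := congrFun h 1
  have e2 : (1 - m) * cc (t 0) + μ * ((1 - |(ρ : ℝ)|) * cc (t 0)) = 0 := congrFun h 2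
  have e3 : (1 - m) * cc (t 1) + μ * ((1 - |(ρ : ℝ)|) * cc (t 1)) = 0 := congrFun h 3
  have e4 : (-(m - 1 / 2) + (1 - m) * cc (pos ρ)) + μ * (ρ : ℝ) = 0 := congrFun h 4
  have hm1 : m ≤ 1 := mm_le _
  have hmw : |cc w| ≤ m := (le_max_left _ _).trans (le_max_right _ _)
  have hmr : |cc (pos ρ)| ≤ m := (le_max_right _ _).trans (le_max_right _ _)
  rcases (abs_J ρ).lt_or_eq with hlt | heq
  swap
  · -- poles
    have h5 : m = 1 := by
      apply le_antisymm hm1
      refine le_trans ?_ hmr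
      rcases (abs_eq (zero_le_one (α := ℝ))).mp heq with h6 | h6
      · have h7 : pos ρ = 1 := Subtype.ext (by rw [pos_of_nonneg (by linarith), h6]; rfl)
        rw [h7, cc_one]; norm_num
      · have h7 : pos ρ = 0 := pos_of_nonpos (by linarith)
        rw [h7, cc_zero]; norm_num
    rw [heq, h5] at e0
    norm_num at e0
  have hk : 0 < 1 - |(ρ : ℝ)| := by linarith
  have hck : 0 < (1 - m) + μ * (1 - |(ρ : ℝ)|) := by
    have := mul_pos hμ hk
    linarith
  have t0 : cc (t 0) = 0 := by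
    have : ((1 - m) + μ * (1 - |(ρ : ℝ)|)) * cc (t 0) = 0 := by linarith
    exact (mul_eq_zero.mp this).resolve_left hck.ne'
  have t1 : cc (t 1) = 0 := by
    have : ((1 - m) + μ * (1 - |(ρ : ℝ)|)) * cc (t 1) = 0 := by linarith
    exact (mul_eq_zero.mp this).resolve_left hck.ne'
  have hmt : mt t = 0 := by simp [mt, t0, t1]
  rw [hmt, sub_zero, mul_one] at e0 e1
  have hpi := Real.pi_pos
  have hμk : 0 < μ * (1 - |(ρ : ℝ)|) := mul_pos hμ hk
  -- `w = 1/2`
  have hw0 : w ≠ 0 := by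
    rintro rfl
    have h5 : m = 1 := le_antisymm hm1 (le_trans (by rw [cc_zero]; norm_num) hmw)
    rw [h5] at e0
    simp at e0
    linarith
  have hw1 : w ≠ 1 := by
    rintro rfl
    have h5 : m = 1 := le_antisymm hm1 (le_trans (by rw [cc_one]; norm_num) hmw)
    rw [h5] at e0
    simp at e0
    linarith
  have hw0' : (0 : ℝ) < w := lt_of_le_of_ne w.2.1 fun h => hw0 (Subtype.ext h.symm)
  have hw1' : (w : ℝ) < 1 := lt_of_le_of_ne w.2.2 fun h => hw1 (Subtype.ext h)
  have hwh : (w : ℝ) = 1 / 2 := by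
    rcases lt_trichotomy (w : ℝ) (1 / 2) with h5 | h5 | h5
    · exfalso
      have h6 : 0 < Real.sin (2 * Real.pi * w) := by
        apply Real.sin_pos_of_pos_of_lt_pi
        · positivity
        · nlinarith
      have h7 : cc w < 0 := by unfold cc; linarith
      have h8 : (1 - m) * cc w ≤ 0 := mul_nonpos_of_nonneg_of_nonpos (by linarith) h7.le
      have h9 : 0 < μ * ((1 - |(ρ : ℝ)|) * Real.sin (2 * Real.pi * w)) := by positivity
      linarith
    · exact h5
    · exfalso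
      have h6 : Real.sin (2 * Real.pi * w) < 0 := by
        have h10 : Real.sin (2 * Real.pi * w - 2 * Real.pi) < 0 := by
          apply Real.sin_neg_of_neg_of_neg_pi_lt
          · nlinarith
          · nlinarith
        rwa [Real.sin_sub_two_pi] at h10
      have h7 : 0 < cc w := by unfold cc; linarith
      have h8 : 0 ≤ (1 - m) * cc w := mul_nonneg (by linarith) h7.le
      have h9 : μ * ((1 - |(ρ : ℝ)|) * Real.sin (2 * Real.pi * w)) < 0 := by
        rw [← mul_assoc]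
        exact mul_neg_of_pos_of_neg hμk h6
      linarith
  have hcos : Real.cos (2 * Real.pi * w) = -1 := by
    rw [hwh, show 2 * Real.pi * (1 / 2) = Real.pi by ring, Real.cos_pi]
  rw [hcos] at e0
  have hccw : cc w = 0 := by unfold cc; rw [hwh]; norm_num
  rcases le_or_gt (ρ : ℝ) 0 with h5 | h5
  · have h6 : pos ρ = 0 := pos_of_nonpos h5
    have h7 : m = 1 := le_antisymm hm1 (le_trans (by rw [h6, cc_zero]; norm_num) hmr)
    rw [h7] at e4
    have h8 : μ * (ρ : ℝ) ≤ 0 := mul_nonpos_of_nonneg_of_nonpos hμ.le h5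
    linarith
  · have h6 : cc (pos ρ) = 2 * (ρ : ℝ) - 1 := by unfold cc; rw [pos_of_nonneg h5.le]
    have h7 : |(ρ : ℝ)| = ρ := abs_of_pos h5
    rw [h7] at e0 hck
    rw [h6] at e4
    have h8 : (2 * (ρ : ℝ) - 1) * (μ + (1 - m)) = 0 := by linarith
    have h9 : (ρ : ℝ) = 1 / 2 := by
      rcases mul_eq_zero.mp h8 with h10 | h10
      · linarith
      · linarith
    have h10 : m = 0 := by
      rw [hm]
      unfold mm
      show max (mt t) (max |cc w| |cc (pos ρ)|) = 0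
      rw [hmt, hccw, h6, h9]
      norm_num
    rw [h10, h9] at e0
    linarith

end Pool.Agent.W340.SC
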