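import Mathlib
import Pool.Agent.W340.SC.DetA

set_option autoImplicit false
set_option linter.unusedSectionVars false

/-! SC-DET, part B: the degree argument. -/

open unitInterval Topology ContinuousMap

namespace Pool.Agent.W340.SC

open Pool.Agent.W622.SC Pool.Agent.H904R2 Pool.Agent.H904R2.Deg Pool.Agent.H904R2.Sph
open Pool.Agent.Helper922.HB.Sc (slice)

/-- homotopy invariance of the degree -/
lemma deg_hom {n : ℕ} (H : C(Pc (n + 1) × I, Pc (n + 1))) {c : ℤ}
    (h : HasDeg n (slice H 0) c) : HasDeg n (slice H 1) c := by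
  unfold HasDeg at h ⊢
  have h1 := homotopy_bdy H (fund_cyc n)
  have h2 := bdy_add h1 h
  have e : psh (slice H 1) n (fund n) - psh (slice H 0) n (fund n) +
      (psh (slice H 0) n (fund n) - c • fund n) = psh (slice H 1) n (fund n) - c • fund n := by
    abel
  rw [e] at h2
  exact h2

/-! ### The square map -/

/-- `z / √|z|` on the first two coordinates -/
noncomputable def hsq (z : ℂ) : ℂ := z / (Real.sqrt ‖z‖ : ℂ)

lemma norm_hsq (z : ℂ) : ‖hsq z‖ = Real.sqrt ‖z‖ := by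
  unfold hsq
  rw [norm_div, Complex.norm_real, Real.norm_eq_abs, abs_of_nonneg (Real.sqrt_nonneg _)]
  rcases eq_or_ne z 0 with rfl | hz
  · simp
  · have h1 : 0 < ‖z‖ := norm_pos_iff.mpr hz
    have h2 : 0 < Real.sqrt ‖z‖ := Real.sqrt_pos.mpr h1
    rw [div_eq_iff h2.ne']
    exact (Real.mul_self_sqrt h1.le).symm

lemma hsq_cont : Continuous hsq := by
  rw [continuous_iff_continuousAt]
  intro z
  rcases eq_or_ne z 0 with rfl | hz
  · have h0 : hsq 0 = 0 := by simp [hsq]
    rw [ContinuousAt, h0, tendsto_zero_iff_norm_tendsto_zero]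
    simp only [norm_hsq]
    have : Continuous fun z : ℂ => Real.sqrt ‖z‖ := Real.continuous_sqrt.comp continuous_norm
    have h1 := this.tendsto 0
    simpa using h1
  · unfold hsq
    refine ContinuousAt.div continuousAt_id ?_ ?_
    · exact (Complex.continuous_ofReal.comp
        (Real.continuous_sqrt.comp continuous_norm)).continuousAt
    · have h1 : 0 < ‖z‖ := norm_pos_iff.mpr hz
      exact_mod_cast (Real.sqrt_pos.mpr h1).ne'

lemma hsq_eq_zero {z : ℂ} (h : hsq z = 0) : z = 0 := by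
  have h1 := norm_hsq z
  rw [h, norm_zero] at h1
  have h2 : ‖z‖ = 0 := by
    have := (Real.sqrt_eq_zero (norm_nonneg z)).mp h1.symm
    exact this
  exact norm_eq_zero.mp h2

/-- `(z, x, y) ↦ (z / √|z|, x, y)` -/
noncomputable def psi : C(Pc 5, Pc 5) :=
  ⟨fun v => ⟨put (hsq (c2 v.1)) v.1, put_ne_zero _ _ hsq_eq_zero v.2⟩, by
    apply Continuous.subtype_mk
    exact (continuous_put 3).comp ((hsq_cont.comp ((continuous_c2 3).comp
      continuous_subtype_val)).prodMk continuous_subtype_val)⟩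

lemma put_2 (z : ℂ) (v : Fin 5 → ℝ) : put z v 2 = v 2 := rfl
lemma put_3 (z : ℂ) (v : Fin 5 → ℝ) : put z v 3 = v 3 := rfl
lemma put_4 (z : ℂ) (v : Fin 5 → ℝ) : put z v 4 = v 4 := rfl

lemma ext5 {v w : Fin 5 → ℝ} (hc : c2 v = c2 w) (h2 : v 2 = w 2) (h3 : v 3 = w 3)
    (h4 : v 4 = w 4) : v = w := by
  funext i
  fin_cases i
  · show v 0 = w 0
    rw [← c2_re v, hc, c2_re]
  · show v 1 = w 1
    rw [← c2_im v, hc, c2_im]
  · exact h2
  · exact h3
  · exact h4

lemma psi_pf (v : Pc 5) : (psi (pf 3 2 two_pos v)).1 =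
    put ((c2 v.1) ^ 2 / (‖c2 v.1‖ : ℂ)) v.1 := by
  show put (hsq (c2 (put ((c2 v.1) ^ 2) v.1))) (put ((c2 v.1) ^ 2) v.1) = _
  rw [c2_put]
  have h1 : hsq ((c2 v.1) ^ 2) = (c2 v.1) ^ 2 / (‖c2 v.1‖ : ℂ) := by
    unfold hsq
    rw [norm_pow, Real.sqrt_sq (norm_nonneg _)]
  rw [h1]
  apply ext5
  · rw [c2_put, c2_put]
  · rfl
  · rfl
  · rfl

/-- the doubled angle coordinate -/
noncomputable def dbw (w : I) : I := by
  classical exact
  if h : (w : ℝ) ≤ 1 / 2 then ⟨2 * w, by have := w.2.1; constructor <;> linarith⟩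
  else ⟨2 * w - 1, by have := w.2.2; push Not at h; constructor <;> linarith⟩

lemma dbw_eq (w : I) : ((dbw w : I) : ℝ) = 2 * w ∨ ((dbw w : I) : ℝ) = 2 * w - 1 := by
  unfold dbw
  split_ifs
  · left; rfl
  · right; rfl

/-- half of the coordinate -/
noncomputable def hfw (w : I) : I := ⟨w / 2, by
  have h1 := w.2.1; have h2 := w.2.2; constructor <;> linarith⟩

lemma hfw_cont : Continuous hfw := by
  unfold hfw
  exact (continuous_subtype_val.div_const 2).subtype_mk _

lemma QQ_half (w : I) : QQ.mk (hfw (dbw w), 0) = QQ.mk (w, 0) := by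
  rcases dbw_eq w with h | h
  · have : hfw (dbw w) = w := Subtype.ext (by show ((dbw w : I) : ℝ) / 2 = w; rw [h]; ring)
    rw [this]
  · have hw : ((hfw (dbw w) : I) : ℝ) = w - 1 / 2 := by
      show ((dbw w : I) : ℝ) / 2 = w - 1 / 2
      rw [h]; ring
    rw [QQ.mk_eq_iff]
    set w' := hfw (dbw w) with hw'
    have h0 := w'.2.1
    have h1 := w.2.2
    have hbad : Qbad (w', (0 : I)) ↔ Qbad (w, (0 : I)) := by
      unfold Qbad
      constructor
      · rintro (h2 | h2 | h2 | h2)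
        · right; right; right
          refine ⟨rfl, ?_⟩
          have : (w' : ℝ) = 0 := congrArg Subtype.val h2
          show (w : ℝ) = 1 / 2
          linarith
        · exfalso
          have : (w' : ℝ) = 1 := congrArg Subtype.val h2
          linarith
        · exact absurd h2 (by simp)
        · right; left
          have : (w' : ℝ) = 1 / 2 := h2.2
          exact Subtype.ext (by show (w : ℝ) = 1; linarith)
      · rintro (h2 | h2 | h2 | h2)
        · exfalso
          have : (w : ℝ) = 0 := congrArg Subtype.val h2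
          linarith
        · right; right; right
          have : (w : ℝ) = 1 := congrArg Subtype.val h2
          exact ⟨rfl, by show (w' : ℝ) = 1 / 2; linarith⟩
        · exact absurd h2 (by simp)
        · left
          have : (w : ℝ) = 1 / 2 := h2.2
          exact Subtype.ext (by show (w' : ℝ) = 0; linarith)
    unfold Qnf
    by_cases hb : Qbad (w, (0 : I))
    · rw [if_pos hb, if_pos (hbad.mpr hb)]
    · rw [if_neg hb, if_neg (fun h3 => hb (hbad.mp h3)), if_pos rfl, if_pos rfl]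
      congr 2
      show Int.fract (2 * (w' : ℝ)) = Int.fract (2 * (w : ℝ))
      rw [hw, Int.fract_eq_fract]
      exact ⟨-1, by push_cast; ring⟩

/-- the normalisation of the square -/
lemma nrm_sq (v : Pc 5) (t : Fin 2 → I) (w : I) (ρ : J) (h : nrm v = q (t, (w, ρ))) :
    nrm (psi (pf 3 2 two_pos v)) = q (t, (dbw w, ρ)) := by
  have hN := NN_pos v.2
  have h1 : (NN v.1)⁻¹ • v.1 = qv (t, (w, ρ)) := congrArg Subtype.val h
  set a : ℝ := (1 - |(ρ : ℝ)|) * (1 - mt t) with ha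
  have ha0 : 0 ≤ a := mul_nonneg (by linarith [abs_J ρ]) (by linarith [mt_le t])
  have hv : v.1 = NN v.1 • qv (t, (w, ρ)) := by
    rw [← h1, smul_smul, mul_inv_cancel₀ hN.ne', one_smul]
  have hc : c2 v.1 = (NN v.1 : ℂ) * ((a : ℂ) *
      Complex.exp (((2 * Real.pi * w : ℝ) : ℂ) * Complex.I)) := by
    conv_lhs => rw [hv]
    rw [c2_smul, c2_qv]
  have hcn : ‖c2 v.1‖ = NN v.1 * a := by
    rw [hc, norm_mul, norm_mul, Complex.norm_exp_ofReal_mul_I, Complex.norm_real,
      Complex.norm_real, Real.norm_eq_abs, Real.norm_eq_abs, abs_of_pos hN, abs_of_nonneg ha0,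
      mul_one]
  have hexp : Complex.exp (((2 * Real.pi * (dbw w : I) : ℝ) : ℂ) * Complex.I) =
      Complex.exp (((2 * Real.pi * w : ℝ) : ℂ) * Complex.I) ^ 2 := by
    rw [← Complex.exp_nat_mul]
    rcases dbw_eq w with h2 | h2
    · rw [h2]
      congr 1
      push_cast; ring
    · rw [h2]
      have e : (((2 * Real.pi * (2 * w - 1) : ℝ) : ℂ) * Complex.I) =
          ((2 : ℕ) : ℂ) * ((((2 * Real.pi * w : ℝ) : ℂ)) * Complex.I) -
            2 * Real.pi * Complex.I := by
        push_cast; ring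
      rw [e, Complex.exp_sub, Complex.exp_two_pi_mul_I, div_one]
  have hz : (c2 v.1) ^ 2 / (‖c2 v.1‖ : ℂ) = (NN v.1 : ℂ) * ((a : ℂ) *
      Complex.exp (((2 * Real.pi * (dbw w : I) : ℝ) : ℂ) * Complex.I)) := by
    rw [hexp, hcn, hc]
    rcases eq_or_ne a 0 with h0 | h0
    · rw [h0]; simp
    · have hNc : (NN v.1 : ℂ) ≠ 0 := by exact_mod_cast hN.ne'
      have hac : (a : ℂ) ≠ 0 := by exact_mod_cast h0
      push_cast
      field_simp
  have hp : (psi (pf 3 2 two_pos v)).1 = NN v.1 • qv (t, (dbw w, ρ)) := by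
    rw [psi_pf, hz]
    apply ext5
    · rw [c2_put, c2_smul, c2_qv]
    · rw [put_2]
      conv_lhs => rw [hv]
      rfl
    · rw [put_3]
      conv_lhs => rw [hv]
      rfl
    · rw [put_4]
      conv_lhs => rw [hv]
      rfl
  apply Subtype.ext
  show (NN (psi (pf 3 2 two_pos v)).1)⁻¹ • (psi (pf 3 2 two_pos v)).1 = qv (t, (dbw w, ρ))
  rw [hp, NN_smul hN.le, NN_qv, mul_one, smul_smul, inv_mul_cancel₀ hN.ne', one_smul]

/-! ### The maps on the sphere -/

section
variable [LocallyCompactSpace QQ] (H : C(I × S2 QQ.pt, Pc 5))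

/-- the point of the double suspension -/
noncomputable def ptS : C((Fin 2 → I) × (I × I), S2 QQ.pt) :=
  ⟨fun x => S2.mk QQ.pt (x.1, QQ.mk x.2), by fun_prop⟩

lemma ptS_bad {t : Fin 2 → I} {x : I × I} (h : Qbad x) : ptS (t, x) = S2.pt QQ.pt := by
  apply S2.mk_bad
  right
  show QQ.mk x = QQ.mk (0, 0)
  rw [QQ.mk_eq_iff]
  unfold Qnf
  rw [if_pos h, if_pos pt_bad]

lemma ptS_bd {t : Fin 2 → I} (h : t ∈ Cube.boundary (Fin 2)) (x : I × I) :
    ptS (t, x) = S2.pt QQ.pt := S2.mk_bad (Or.inl h)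

/-- the map `m` on `I × B` -/
noncomputable def mB : C(I × B, Pc 5) :=
  ⟨fun x => H (x.1 * nf x.2.2.2, ptS (x.2.1, (x.2.2.1, pos x.2.2.2))), by
    refine H.continuous.comp (Continuous.prodMk ?_ ?_)
    · exact continuous_fst.mul (nf_cont.comp (by fun_prop))
    · refine ptS.continuous.comp (Continuous.prodMk (by fun_prop) (Continuous.prodMk (by fun_prop)
        (pos_cont.comp (by fun_prop))))⟩

/-- the map `β` on `B` -/
noncomputable def bB : C(B, Pc 5) :=
  ⟨fun x => H (nf x.2.2, ptS (x.1, (hfw x.2.1, 0))), by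
    refine H.continuous.comp (Continuous.prodMk ?_ ?_)
    · exact nf_cont.comp (by fun_prop)
    · refine ptS.continuous.comp (Continuous.prodMk (by fun_prop) (Continuous.prodMk
        (hfw_cont.comp (by fun_prop)) continuous_const))⟩

variable (h0 : ∀ x, H (0, x) = dd.toMap x) (y1 : Pc 5) (h1 : ∀ x, H (1, x) = y1)

/-- the identification map on `I × B` -/
noncomputable def qI : C(I × B, I × Sph) := (ContinuousMap.id I).prodMap q

lemma NN_bdd (v : Sph) : ‖v.1‖ ≤ 1 := by
  have h : NN v.1 = 1 := v.2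
  have g0 : 0 ≤ ‖c2 v.1‖ := norm_nonneg _
  have g1 : 0 ≤ max |v.1 2| |v.1 3| := (abs_nonneg _).trans (le_max_left _ _)
  have g2 : 0 ≤ |v.1 4| := abs_nonneg _
  unfold NN at h
  rw [pi_norm_le_iff_of_nonneg zero_le_one]
  intro i
  rw [Real.norm_eq_abs]
  fin_cases i
  · have := Complex.abs_re_le_norm (c2 v.1)
    rw [c2_re] at this
    show |v.1 0| ≤ 1
    linarith
  · have := Complex.abs_im_le_norm (c2 v.1)
    rw [c2_im] at this
    show |v.1 1| ≤ 1
    linarith
  · have := le_max_left |v.1 2| |v.1 3|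
    show |v.1 2| ≤ 1
    linarith
  · have := le_max_right |v.1 2| |v.1 3|
    show |v.1 3| ≤ 1
    linarith
  · show |v.1 4| ≤ 1
    linarith

lemma q_quot : IsQuotientMap q :=
  (q.continuous.isClosedMap).isQuotientMap q.continuous q_surj

lemma qI_quot : IsQuotientMap qI := by
  refine (qI.continuous.isClosedMap).isQuotientMap qI.continuous ?_
  rintro ⟨s, v⟩
  obtain ⟨b, rfl⟩ := q_surj v
  exact ⟨(s, b), rfl⟩

include h0 in
lemma mB_fac : Function.FactorsThrough (mB H) qI := by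
  rintro ⟨s, b⟩ ⟨s', b'⟩ h
  have hs : s = s' := congrArg Prod.fst h
  have hq : q b = q b' := congrArg Prod.snd h
  subst hs
  refine q_fib (fun b => mB H (s, b)) ?_ ?_ ?_ hq
  · intro t w t' w' ρ hρ
    show H (s * nf ρ, ptS (t, (w, pos ρ))) = H (s * nf ρ, ptS (t', (w', pos ρ)))
    rcases (abs_eq (zero_le_one (α := ℝ))).mp hρ with h2 | h2
    · have h3 : pos ρ = 1 := Subtype.ext (by rw [pos_of_nonneg (by linarith), h2]; rfl)
      have h4 : ∀ w : I, Qbad (w, pos ρ) := fun w => Or.inr (Or.inr (Or.inl h3))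
      rw [ptS_bad (h4 w), ptS_bad (h4 w')]
    · have h3 : pos ρ = 0 := pos_of_nonpos (by linarith)
      have h4 : nf ρ = 0 := Subtype.ext (by
        show 1 + min 0 (ρ : ℝ) = 0
        rw [h2]; norm_num)
      rw [h4, mul_zero, h0, h0, h3]
      show dd.toMap (S2.mk QQ.pt (t, QQ.mk (w, 0))) = dd.toMap (S2.mk QQ.pt (t', QQ.mk (w', 0)))
      rw [LP.toMap_mk, LP.toMap_mk, dd_zero, dd_zero]
  · intro t w w' ρ ht
    show H (s * nf ρ, ptS (t, (w, pos ρ))) = H (s * nf ρ, ptS (t, (w', pos ρ)))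
    rw [ptS_bd ht, ptS_bd ht]
  · intro t ρ
    show H (s * nf ρ, ptS (t, (0, pos ρ))) = H (s * nf ρ, ptS (t, (1, pos ρ)))
    rw [ptS_bad (Or.inl rfl), ptS_bad (Or.inr (Or.inl rfl))]

include h0 h1 in
lemma bB_fac : Function.FactorsThrough (bB H) q := by
  intro b b' hq
  refine q_fib (fun b => bB H b) ?_ ?_ ?_ hq
  · intro t w t' w' ρ hρ
    show H (nf ρ, ptS (t, (hfw w, 0))) = H (nf ρ, ptS (t', (hfw w', 0)))
    rcases (abs_eq (zero_le_one (α := ℝ))).mp hρ with h2 | h2
    · rw [nf_of_nonneg (by linarith), h1, h1]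
    · have h4 : nf ρ = 0 := Subtype.ext (by
        show 1 + min 0 (ρ : ℝ) = 0
        rw [h2]; norm_num)
      rw [h4, h0, h0]
      show dd.toMap (S2.mk QQ.pt (t, QQ.mk (hfw w, 0))) =
        dd.toMap (S2.mk QQ.pt (t', QQ.mk (hfw w', 0)))
      rw [LP.toMap_mk, LP.toMap_mk, dd_zero, dd_zero]
  · intro t w w' ρ ht
    show H (nf ρ, ptS (t, (hfw w, 0))) = H (nf ρ, ptS (t, (hfw w', 0)))
    rw [ptS_bd ht, ptS_bd ht]
  · intro t ρ
    show H (nf ρ, ptS (t, (hfw 0, 0))) = H (nf ρ, ptS (t, (hfw 1, 0)))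
    have e0 : hfw 0 = 0 := Subtype.ext (by show ((0 : I) : ℝ) / 2 = 0; simp)
    have e1 : Qbad (hfw 1, (0 : I)) := by
      right; right; right
      exact ⟨rfl, by show ((1 : I) : ℝ) / 2 = 1 / 2; simp⟩
    rw [e0, ptS_bad (Or.inl rfl), ptS_bad e1]

include h0 h1 in
theorem no_null : False := by
  -- the maps on the sphere
  let M : C(I × Sph, Pc 5) := qI_quot.lift (mB H) (mB_fac H h0)
  let β : C(Sph, Pc 5) := q_quot.lift (bB H) (bB_fac H h0 y1 h1)
  have hM : ∀ s b, M (s, q b) = mB H (s, b) := fun s b =>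
    congrArg (fun f : C(I × B, Pc 5) => f (s, b)) (qI_quot.lift_comp (mB H) (mB_fac H h0))
  have hβ : ∀ b, β (q b) = bB H b := fun b =>
    congrArg (fun f : C(B, Pc 5) => f b) (q_quot.lift_comp (bB H) (bB_fac H h0 y1 h1))
  -- `M` as a homotopy of self-maps of the punctured space
  let MH : C(Pc 5 × I, Pc 5) := M.comp ⟨fun x => (x.2, nrm x.1), by fun_prop⟩
  -- the straight line from `M₀` to the identity
  have hne : ∀ (v : Pc 5) (s : I), (1 - (s : ℝ)) • (MH (v, 0)).1 + (s : ℝ) • v.1 ≠ 0 := by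
    intro v s
    obtain ⟨⟨t, w, ρ⟩, hb⟩ := q_surj (nrm v)
    have hN := NN_pos v.2
    have hv : v.1 = NN v.1 • qv (t, (w, ρ)) := by
      have h2 : qv (t, (w, ρ)) = (NN v.1)⁻¹ • v.1 := congrArg Subtype.val hb
      rw [h2, smul_smul, mul_inv_cancel₀ hN.ne', one_smul]
    have hm : MH (v, 0) = th (t, (w, pos ρ)) := by
      show M (0, nrm v) = _
      rw [← hb, hM]
      show H (0 * nf ρ, ptS (t, (w, pos ρ))) = _
      rw [zero_mul, h0]
      rfl
    rw [hm]
    rcases eq_or_ne (s : ℝ) 0 with hs | hs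
    · rw [hs, sub_zero, one_smul, zero_smul, add_zero]
      exact (th _).2
    rcases eq_or_ne (s : ℝ) 1 with hs1 | hs1
    · rw [hs1, sub_self, zero_smul, zero_add, one_smul]
      exact v.2
    have s0 : 0 < (s : ℝ) := lt_of_le_of_ne s.2.1 (Ne.symm hs)
    have s1 : 0 < 1 - (s : ℝ) := by
      have := lt_of_le_of_ne s.2.2 hs1
      linarith
    intro hcon
    apply key t w ρ ((s : ℝ) * NN v.1 / (1 - (s : ℝ))) (by positivity)
    have h2 : (1 - (s : ℝ)) • (thv (t, (w, pos ρ)) +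
        ((s : ℝ) * NN v.1 / (1 - (s : ℝ))) • qv (t, (w, ρ))) = 0 := by
      rw [smul_add, smul_smul, mul_div_cancel₀ _ s1.ne', mul_smul, ← hv]
      exact hcon
    exact (smul_eq_zero.mp h2).resolve_left s1.ne'
  let L : C(Pc 5 × I, Pc 5) :=
    ⟨fun x => ⟨(1 - (x.2 : ℝ)) • (MH (x.1, 0)).1 + (x.2 : ℝ) • x.1.1, hne x.1 x.2⟩, by
      apply Continuous.subtype_mk
      have c1 : Continuous fun x : Pc 5 × I => (MH (x.1, 0)).1 :=
        continuous_subtype_val.comp (MH.continuous.comp (continuous_fst.prodMk continuous_const))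
      have c2 : Continuous fun x : Pc 5 × I => (x.2 : ℝ) := by fun_prop
      have c3 : Continuous fun x : Pc 5 × I => x.1.1 := by fun_prop
      exact ((continuous_const.sub c2).smul c1).add (c2.smul c3)⟩
  -- reversed: from the identity to `M₀`
  let L' : C(Pc 5 × I, Pc 5) := L.comp ⟨fun x => (x.1, σ x.2),
    continuous_fst.prodMk (continuous_symm.comp continuous_snd)⟩
  have hL0 : slice L' 0 = ContinuousMap.id _ := by
    ext1 v
    apply Subtype.ext
    show (1 - ((σ 0 : I) : ℝ)) • (MH (v, 0)).1 + ((σ 0 : I) : ℝ) • v.1 = v.1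
    simp
  have hL1 : slice L' 1 = slice MH 0 := by
    ext1 v
    apply Subtype.ext
    show (1 - ((σ 1 : I) : ℝ)) • (MH (v, 0)).1 + ((σ 1 : I) : ℝ) • v.1 = (MH (v, 0)).1
    simp
  have d0 : HasDeg 4 (slice L' 0) 1 := by rw [hL0]; exact deg_id 4
  have d1 := deg_hom L' d0
  rw [hL1] at d1
  have d2 := deg_hom MH d1
  -- `M₁` factors through the square
  have hfac : slice MH 1 = ((β.comp nrm).comp psi).comp (pf 3 2 two_pos) := by
    ext1 v
    show M (1, nrm v) = β (nrm (psi (pf 3 2 two_pos v)))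
    obtain ⟨⟨t, w, ρ⟩, hb⟩ := q_surj (nrm v)
    rw [nrm_sq v t w ρ hb.symm, hβ, ← hb, hM]
    show H (1 * nf ρ, ptS (t, (w, pos ρ))) = H (nf ρ, ptS (t, (hfw (dbw w), 0)))
    rw [one_mul]
    rcases le_or_gt (ρ : ℝ) 0 with h2 | h2
    · rw [pos_of_nonpos h2]
      show H (nf ρ, S2.mk QQ.pt (t, QQ.mk (w, 0))) =
        H (nf ρ, S2.mk QQ.pt (t, QQ.mk (hfw (dbw w), 0)))
      rw [QQ_half]
    · rw [nf_of_nonneg h2.le, h1, h1]
  obtain ⟨c, hc⟩ := exists_deg 4 ((β.comp nrm).comp psi)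
  have d3 := deg_comp (pf_deg 3 2 two_pos) hc
  rw [← hfac] at d3
  have := deg_unique d2 d3
  push_cast at this
  omega

end

theorem main : S_det := by
  intro _
  refine ⟨Pc 5, inferInstance, w0, dd, dd_zero, ?_⟩
  rintro ⟨y1, ⟨F⟩⟩
  exact no_null F.toContinuousMap F.map_zero_left y1 F.map_one_left

end Pool.Agent.W340.SC
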